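import Pool.Agent.Helper81.PX.St

set_option autoImplicit false

/-!
# Packed checker (S15955): index conditions (module M)
-/

namespace Pool.Agent.Helper81.PX.H58

open Helper81.PXr Helper11.CT Helper81.PXd

/-- `- e + f` is represented -/
theorem rep_sub (hA : StA) {α β : ℤ} {e f : List ℤ} {v w : ℕ} (hα : 0 ≤ α) (hβ : 0 ≤ β)
    (he : Rep α e v) (hf : Rep β f w) (hαβ : α + β ≤ 100000) :
    Rep 100000 (axpy (-1) e f) (Nat.add (ng v) w) := by
  obtain ⟨h1, h2, h3⟩ := hA (-1) e f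
  refine ⟨h2.trans (max_le he.len hf.len), ?_, ?_⟩
  · intro x hx
    have := h3 α β hα hβ he.bd hf.bd x hx
    have h4 : |(-1 : ℤ)| = 1 := by decide
    rw [h4, one_mul] at this
    exact this.trans hαβ
  · have h5 : ((Nat.add (ng v) w : ℕ) : ℤ) = ((ng v : ℕ) : ℤ) + (w : ℤ) := Nat.cast_add _ _
    rw [h5, h1, neg_one_mul]
    exact ((ng_cg v).trans he.cg.neg).add hf.cg

/-- bounds of a combination with a small multiplier -/
theorem ax_bd (hA : StA) {α β γ k : ℤ} {e f : List ℤ} (hα : 0 ≤ α) (hβ : 0 ≤ β)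
    (he : ∀ x ∈ e, |x| ≤ α) (hf : ∀ x ∈ f, |x| ≤ β) (hk : |k| = 1) (h : α + β ≤ γ) :
    ∀ x ∈ axpy k e f, |x| ≤ γ := by
  intro x hx
  have := (hA k e f).2.2 α β hα hβ he hf x hx
  rw [hk, one_mul] at this
  exact this.trans h

theorem ax_len (hA : StA) {k : ℤ} {e f : List ℤ} {m : ℕ} (he : e.length ≤ m)
    (hf : f.length ≤ m) : (axpy k e f).length ≤ m :=
  (hA k e f).2.1.trans (max_le he hf)

theorem dL_bd : ∀ x ∈ dL, |x| ≤ (1 : ℤ) := by
  intro x hx
  simp only [dL, List.mem_cons, List.not_mem_nil, or_false] at hx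
  rcases hx with rfl | rfl <;> decide

theorem dL_len (m : ℕ) (hm : 2 ≤ m) : dL.length ≤ m := hm

theorem an1 {a b : Bool} (h : an a b = true) : a = true := ((an_iff a b).1 h).1

theorem an2 {a b : Bool} (h : an a b = true) : b = true := ((an_iff a b).1 h).2

theorem orr_or {a b c : Bool} (h : orr a b = true) (hb : b = true → c = true) :
    (a || c) = true := by
  rcases (orr_iff a b).1 h with h | h
  · rw [h]; rfl
  · rw [hb h]; cases a <;> rfl

theorem and_mk {a b : Bool} (ha : a = true) (hb : b = true) : (a && b) = true := by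
  rw [ha, hb]; rfl

theorem nixM (hA : StA) (hE : StE) (hI : StI) (K : Cls) (Q : List Con) (st : ℕ) (n : List ℤ)
    (e1 e2 : ℕ) (zn : NZn) (sc : ℕ) (zl : NZn) (hK : Good K) (hQ : GQ Q) (hn : n.length ≤ 6)
    (hb : ∀ x ∈ n, |x| ≤ 8) (h : nixN (pkK K) (pkQ Q) st n e1 e2 zn sc zl = true) :
    nix K Q st n (toC e1, toC e2) (toNZ zn) (toC sc) (toNZ zl) = true := by
  have hb' : ∀ x ∈ n, |x| ≤ 24 := fun x hx => (hb x hx).trans (by norm_num)
  have hn' : n.length ≤ 7 := hn.trans (by norm_num)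
  have hd1 : (dsub n dL).length ≤ 7 := ax_len hA (dL_len 7 (by norm_num)) hn'
  have hd2 : ∀ x ∈ dsub n dL, |x| ≤ 24 :=
    ax_bd hA (by norm_num) (by norm_num) dL_bd hb (by decide) (by norm_num)
  have hl : nzN (pkK K) (pkQ Q) (dsub n dL) zl = true → nzc K Q (dsub n dL) (toNZ zl) = true :=
    hI.1 K Q (dsub n dL) zl hK hQ hd1 hd2
  have hx : exN (pkK K) (pkQ Q) n e1 e2 zn = true →
      exc K Q n (toC e1, toC e2) (toNZ zn) = true :=
    hI.2 K Q n e1 e2 zn hK hQ hn' hb'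
  match st, h with
  | 0, h =>
    have h' : an (exN (pkK K) (pkQ Q) n e1 e2 zn)
      (an (ctN (pkQ Q) sc (Nat.add (ng (fIN (pkK K) n)) (pkK K).J))
        (orr (ieq (tau n) 1) (nzN (pkK K) (pkQ Q) (dsub n dL) zl))) = true := h
    show (exc K Q n (toC e1, toC e2) (toNZ zn) && cert Q (toC sc) (axpy (-1) (fI K n) K.J) &&
        (ieq (tau n) 1 || nzc K Q (dsub n dL) (toNZ zl))) = true
    refine and_mk (and_mk (hx (an1 h')) ?_) (orr_or (an2 (an2 h')) hl)
    exact hE Q sc _ _ hQ (rep_sub hA (by norm_num) (by norm_num) (hK.I n hb') hK.J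
      (by norm_num)) (an1 (an2 h'))
  | 1, h =>
    have h' : an (exN (pkK K) (pkQ Q) n e1 e2 zn)
      (an (ctN (pkQ Q) sc (Nat.add (ng (pkK K).J) (fIN (pkK K) n)))
        (orr (ieq (tau n) 1) (nzN (pkK K) (pkQ Q) (dsub n dL) zl))) = true := h
    show (exc K Q n (toC e1, toC e2) (toNZ zn) && cert Q (toC sc) (axpy (-1) K.J (fI K n)) &&
        (ieq (tau n) 1 || nzc K Q (dsub n dL) (toNZ zl))) = true
    refine and_mk (and_mk (hx (an1 h')) ?_) (orr_or (an2 (an2 h')) hl)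
    exact hE Q sc _ _ hQ (rep_sub hA (by norm_num) (by norm_num) hK.J (hK.I n hb')
      (by norm_num)) (an1 (an2 h'))
  | _ + 2, h => exact h

theorem rixM (hA : StA) (hE : StE) (hI : StI) (K : Cls) (Q : List Con) (r : RLn) (hK : Good K)
    (hQ : GQ Q) (hn : okd r.n = true) (hf : okd r.f = true)
    (h : rixN (pkK K) (pkQ Q) r = true) : rlix K Q (toRL r) = true := by
  obtain ⟨hn1, hn2⟩ := okd_bd hn
  obtain ⟨hf1, hf2⟩ := okd_bd hf
  have hf' : ∀ x ∈ r.f, |x| ≤ 24 := fun x hx => (hf2 x hx).trans (by norm_num)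
  have hnf1 : (dsub r.n r.f).length ≤ 7 :=
    ax_len hA (hf1.trans (by norm_num)) (hn1.trans (by norm_num))
  have hnf2 : ∀ x ∈ dsub r.n r.f, |x| ≤ 16 :=
    ax_bd hA (by norm_num) (by norm_num) hf2 hn2 (by decide) (by norm_num)
  have hm1 : (dsub (dsub r.n r.f) dL).length ≤ 7 := ax_len hA (dL_len 7 (by norm_num)) hnf1
  have hm2 : ∀ x ∈ dsub (dsub r.n r.f) dL, |x| ≤ 24 :=
    ax_bd hA (by norm_num) (by norm_num) dL_bd hnf2 (by decide) (by norm_num)
  have hp1 : (axpy 1 dL (dsub r.n r.f)).length ≤ 7 := ax_len hA (dL_len 7 (by norm_num)) hnf1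
  have hp2 : ∀ x ∈ axpy 1 dL (dsub r.n r.f), |x| ≤ 24 :=
    ax_bd hA (by norm_num) (by norm_num) dL_bd hnf2 (by decide) (by norm_num)
  have g1 := hI.1 K Q (dsub r.n r.f) r.znf hK hQ hnf1
    fun x hx => (hnf2 x hx).trans (by norm_num)
  have g2 := hI.1 K Q (dsub (dsub r.n r.f) dL) r.znl hK hQ hm1 hm2
  have g3 := hI.1 K Q (axpy 1 dL (dsub r.n r.f)) r.zfl hK hQ hp1 hp2
  have g0 := hI.2 K Q r.f r.ef1 r.ef2 r.zf hK hQ (hf1.trans (by norm_num)) hf'
  have gn := nixM hA hE hI K Q r.st r.n r.en1 r.en2 r.zn r.sc r.zl hK hQ hn1 hn2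
  cases r with
  | mk st jr f0 dk n f W en1 en2 ef1 ef2 sc zn zf zl znf znl zfl KW Kt AW At BW Bt Z =>
  cases f0 with
  | true =>
    have h' : an (nixN (pkK K) (pkQ Q) st n en1 en2 zn sc zl)
      (leq f [] && jr && (match (generalizing := false) st with | 1 => true | _ => false)) = true := h
    show (nix K Q st n (toC en1, toC en2) (toNZ zn) (toC sc) (toNZ zl) &&
      (leq f [] && jr && (match (generalizing := false) st with | 1 => true | _ => false))) = true
    exact and_mk (gn (an1 h')) (an2 h')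
  | false =>
    have h' : an (nixN (pkK K) (pkQ Q) st n en1 en2 zn sc zl)
      (an (exN (pkK K) (pkQ Q) f ef1 ef2 zf)
        (an (orr (ieq (tau n) (tau f)) (nzN (pkK K) (pkQ Q) (dsub n f) znf))
        (an (match (generalizing := false) st with
          | 1 => orr (ieq (tau n) (Int.add (tau f) 1))
              (nzN (pkK K) (pkQ Q) (dsub (dsub n f) dL) znl)
          | _ => true)
        (orr (!ieq (tau f) (Int.add (tau n) 2))
          (nzN (pkK K) (pkQ Q) (axpy 1 dL (dsub n f)) zfl))))) = true := h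
    show (nix K Q st n (toC en1, toC en2) (toNZ zn) (toC sc) (toNZ zl) &&
      (exc K Q f (toC ef1, toC ef2) (toNZ zf) &&
        (ieq (tau n) (tau f) || nzc K Q (dsub n f) (toNZ znf)) &&
        (match (generalizing := false) st with
          | 1 => ieq (tau n) (Int.add (tau f) 1) || nzc K Q (dsub (dsub n f) dL) (toNZ znl)
          | _ => true) &&
        ((!ieq (tau f) (Int.add (tau n) 2)) || nzc K Q (axpy 1 dL (dsub n f)) (toNZ zfl)))) = true
    have h2 := an2 h'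
    refine and_mk (gn (an1 h')) (and_mk (and_mk (and_mk (g0 (an1 h2)) ?_) ?_) ?_)
    · exact orr_or (an1 (an2 h2)) g1
    · have h3 := an1 (an2 (an2 h2))
      match st, h3 with
      | 0, _ => rfl
      | 1, h3 => exact orr_or h3 g2
      | _ + 2, _ => rfl
    · exact orr_or (an2 (an2 (an2 h2))) g3

theorem hM (hA : StA) (hE : StE) (hI : StI) : StM :=
  ⟨fun K Q st n e1 e2 zn sc zl hK hQ hn hb h =>
    nixM hA hE hI K Q st n e1 e2 zn sc zl hK hQ hn hb h,
   fun K Q r hK hQ hn hf h => rixM hA hE hI K Q r hK hQ hn hf h⟩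

end Pool.Agent.Helper81.PX.H58
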