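import Pool.Agent.Helper81.PX.St
import Mathlib.Tactic.Linarith
import Mathlib.Tactic.Ring
import Mathlib.Tactic.Push

set_option autoImplicit false

/-!
# Packed checker (S15955), module K: memberships (helper87)
-/

namespace Helper81.PX.H87

open Helper11.CT Helper81.PXd Helper81.PXr

/-- `k e + f` -/
theorem rep_ax (hA : StA) {k : ℤ} {kn : ℕ} {α β : ℤ} {e f : List ℤ} {v w : ℕ}
    (hα : 0 ≤ α) (hβ : 0 ≤ β) (he : Rep α e v) (hf : Rep β f w)
    (hk : (kn : ℤ) ≡ k [ZMOD ZZ]) : Rep (|k| * α + β) (axpy k e f) (kn * v + w) := by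
  obtain ⟨h1, h2, h3⟩ := hA k e f
  refine ⟨h2.trans (max_le he.len hf.len), h3 α β hα hβ he.bd hf.bd, ?_⟩
  rw [h1]
  push_cast
  exact (hk.mul he.cg).add hf.cg

theorem rep_bd {α β : ℤ} {e : List ℤ} {v w : ℕ} (h : Rep α e v) (hab : α ≤ β) (hvw : v = w) :
    Rep β e w := hvw ▸ h.mono hab

/-- `- e + f` with the number of `-e` -/
theorem rep_axn (hA : StA) {α β : ℤ} {e f : List ℤ} {v w : ℕ}
    (hα : 0 ≤ α) (hβ : 0 ≤ β) (he : RepN α e v) (hf : Rep β f w) :
    Rep (α + β) (axpy (-1) e f) (v + w) := by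
  obtain ⟨h1, h2, h3⟩ := hA (-1) e f
  refine ⟨h2.trans (max_le he.len hf.len), ?_, ?_⟩
  · intro x hx
    have := h3 α β hα hβ he.bd hf.bd x hx
    have e1 : |(-1 : ℤ)| = 1 := by norm_num
    rw [e1] at this
    linarith
  · rw [h1]
    push_cast
    have : (-1 : ℤ) * phi BB e + phi BB f = -phi BB e + phi BB f := by ring
    rw [this]
    exact he.cg.add hf.cg

/-- `e + f` -/
theorem rep_add (hA : StA) {α β : ℤ} {e f : List ℤ} {v w : ℕ}
    (hα : 0 ≤ α) (hβ : 0 ≤ β) (he : Rep α e v) (hf : Rep β f w) :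
    Rep (α + β) (axpy 1 e f) (v + w) := by
  obtain ⟨h1, h2, h3⟩ := hA 1 e f
  refine ⟨h2.trans (max_le he.len hf.len), ?_, ?_⟩
  · intro x hx
    have := h3 α β hα hβ he.bd hf.bd x hx
    have e1 : |(1 : ℤ)| = 1 := by norm_num
    rw [e1] at this
    linarith
  · rw [h1]
    push_cast
    have : (1 : ℤ) * phi BB e + phi BB f = phi BB e + phi BB f := by ring
    rw [this]
    exact he.cg.add hf.cg

/-- `- e + f` with the number of `e` -/
theorem rep_sub (hA : StA) {α β : ℤ} {e f : List ℤ} {v w : ℕ}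
    (hα : 0 ≤ α) (hβ : 0 ≤ β) (he : Rep α e v) (hf : Rep β f w) :
    Rep (α + β) (axpy (-1) e f) (ng v + w) := rep_axn hA hα hβ he.neg hf

theorem memT {Q : List Con} {P t k len off : List ℤ} {M : Memn} (h : M.inn = true) :
    memc Q P t k len off (toMem M) =
      (cert Q (toC M.c1) (axpy (mz M.m) P (axpy (-1) k t)) &&
      cert Q (toC M.c2) (axpy (-1) (axpy (mz M.m) P (axpy (-1) k t)) (axpy 1 len off))) := by
  obtain ⟨i, m, c1, c2⟩ := M
  subst h
  rfl

theorem memF {Q : List Con} {P t k len off : List ℤ} {M : Memn} (h : M.inn = false) :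
    memc Q P t k len off (toMem M) =
      (cert Q (toC M.c1) (axpy (-1) len (axpy (mz M.m) P (axpy (-1) k t))) &&
      cert Q (toC M.c2) (axpy (-1) (axpy (mz M.m) P (axpy (-1) k t)) (axpy 1 P off))) := by
  obtain ⟨i, m, c1, c2⟩ := M
  subst h
  rfl

theorem meT {Q P t nk len off : ℕ} {M : Memn} (h : M.inn = true) :
    meN Q P t nk len off M =
      an (ctN Q M.c1 (mr M.m * P + (nk + t)))
      (ctN Q M.c2 (ng (mr M.m * P + (nk + t)) + (len + off))) := by
  obtain ⟨i, m, c1, c2⟩ := M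
  subst h
  rfl

theorem meF {Q P t nk len off : ℕ} {M : Memn} (h : M.inn = false) :
    meN Q P t nk len off M =
      an (ctN Q M.c1 (ng len + (mr M.m * P + (nk + t))))
      (ctN Q M.c2 (ng (mr M.m * P + (nk + t)) + (P + off))) := by
  obtain ⟨i, m, c1, c2⟩ := M
  subst h
  rfl

theorem hK (hA : StA) (hE : StE) : StK := by
  intro Q P t k len off Pn tn nk lenn offn M hQ hP ht hk hl ho h
  have h1 : Rep 20000 (axpy (-1) k t) (nk + tn) :=
    (rep_axn hA (by norm_num) (by norm_num) hk ht).mono (by norm_num)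
  have hm : |mz M.m| ≤ 8 := mz_bd M.m
  have h2 : Rep 20032 (axpy (mz M.m) P (axpy (-1) k t)) (mr M.m * Pn + (nk + tn)) :=
    (rep_ax hA (by norm_num) (by norm_num) hP h1 (mr_cg M.m)).mono (by linarith)
  cases hi : M.inn with
  | true =>
    rw [memT hi, Bool.and_eq_true]
    rw [meT hi, an_iff] at h
    have h3 : Rep 5 (axpy 1 len off) (lenn + offn) :=
      (rep_add hA (by norm_num) (by norm_num) hl ho).mono (by norm_num)
    refine ⟨hE Q _ _ _ hQ (h2.mono (by norm_num)) h.1, hE Q _ _ _ hQ ?_ h.2⟩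
    exact (rep_sub hA (by norm_num) (by norm_num) h2 h3).mono (by norm_num)
  | false =>
    rw [memF hi, Bool.and_eq_true]
    rw [meF hi, an_iff] at h
    have h3 : Rep 5 (axpy 1 P off) (Pn + offn) :=
      (rep_add hA (by norm_num) (by norm_num) hP ho).mono (by norm_num)
    refine ⟨hE Q _ _ _ hQ ?_ h.1, hE Q _ _ _ hQ ?_ h.2⟩
    · exact (rep_sub hA (by norm_num) (by norm_num) hl h2).mono (by norm_num)
    · exact (rep_sub hA (by norm_num) (by norm_num) h2 h3).mono (by norm_num)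

end Helper81.PX.H87
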