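import Pool.Agent.Helper81.PX.St
import Mathlib.Tactic.Linarith
import Mathlib.Tactic.Ring

set_option autoImplicit false

/-!
# Packed checker (S15955), module D: cells
-/

namespace Helper81.PXr

open Helper11.CT Helper81.PXd

theorem D_ps (w Q : ℕ) : ps w Q = w % ZN + ZN * Q := rfl

set_option exponentiation.threshold 1000 in
theorem D_ZN : ZN = 2 ^ 680 := by norm_num

theorem D_ps_sh (w Q : ℕ) : Nat.shiftRight (ps w Q) 680 = Q := by
  show ps w Q >>> 680 = Q
  rw [Nat.shiftRight_eq_div_pow, D_ps, ← D_ZN, Nat.add_mul_div_left _ _ (by norm_num)]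
  rw [Nat.div_eq_of_lt (Nat.mod_lt _ (by norm_num)), zero_add]

theorem D_ps_mod (w Q : ℕ) : ps w Q % ZN = w % ZN := by
  rw [D_ps, Nat.add_mul_mod_self_left, Nat.mod_mod]

theorem D_mod_cg (w : ℕ) : ((w % ZN : ℕ) : ℤ) ≡ (w : ℤ) [ZMOD ZZ] := by
  rw [Int.natCast_mod, ZN_eq]
  exact Int.mod_modEq _ _

theorem D_wd (c : Con) (Q : List Con) (h : GQ (c :: Q)) :
    Nat.shiftRight (pkQ (c :: Q)) 680 = pkQ Q ∧
    ((pkQ (c :: Q) % ZN : ℕ) : ℤ) ≡ wd c [ZMOD ZZ] := by
  obtain ⟨b, e⟩ := c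
  obtain ⟨h1, h2⟩ := h (b, e) List.mem_cons_self
  have h3 : ((pkN e : ℕ) : ℤ) ≡ phi BB e [ZMOD ZZ] :=
    pkN_cg e fun x hx => (h2 x hx).trans (by norm_num)
  have h4 := (ng_cg (pkN e)).trans h3.neg
  cases b with
  | true =>
    refine ⟨D_ps_sh _ _, ?_⟩
    show ((ps (1099511627776 * (Nat.succ (ng (pkN e)))) (pkQ Q) % ZN : ℕ) : ℤ) ≡ _ [ZMOD ZZ]
    rw [D_ps_mod]
    refine (D_mod_cg _).trans ?_
    have h5 : ((1099511627776 * (Nat.succ (ng (pkN e))) : ℕ) : ℤ) ≡
        1099511627776 * (-phi BB e + 1) [ZMOD ZZ] := by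
      push_cast
      exact (h4.add_right 1).mul_left _
    refine h5.trans ?_
    have h6 : (1099511627776 : ℤ) * (-phi BB e + 1) = wd (true, e) := by
      show _ = 1099511627776 * (1 - phi BB e)
      ring
    rw [h6]
  | false =>
    refine ⟨D_ps_sh _ _, ?_⟩
    show ((ps (Nat.succ (1099511627776 * (ng (pkN e)))) (pkQ Q) % ZN : ℕ) : ℤ) ≡ _ [ZMOD ZZ]
    rw [D_ps_mod]
    refine (D_mod_cg _).trans ?_
    have h5 : ((Nat.succ (1099511627776 * (ng (pkN e))) : ℕ) : ℤ) ≡
        1099511627776 * (-phi BB e) + 1 [ZMOD ZZ] := by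
      push_cast
      exact (h4.mul_left _).add_right 1
    refine h5.trans ?_
    have h6 : (1099511627776 : ℤ) * (-phi BB e) + 1 = wd (false, e) := by
      show _ = 1 - 1099511627776 * phi BB e
      ring
    rw [h6]

theorem D_sh_add (x s : ℕ) :
    Nat.shiftRight x (680 * (s + 1)) = Nat.shiftRight (Nat.shiftRight x 680) (680 * s) := by
  show x >>> (680 * (s + 1)) = (x >>> 680) >>> (680 * s)
  rw [← Nat.shiftRight_add]
  congr 1
  ring

theorem D_tail {c : Con} {Q : List Con} (h : GQ (c :: Q)) : GQ Q :=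
  fun d hd => h d (List.mem_cons_of_mem _ hd)

theorem hD : StD := by
  refine ⟨fun c Q h => D_wd c Q h, ?_⟩
  intro s
  induction s with
  | zero =>
    intro Q hQ
    refine ⟨?_, ?_⟩
    · intro c Q' h
      have h' : Q = c :: Q' := h
      subst h'
      exact ⟨rfl, hQ⟩
    · intro h
      have h' : Q = [] := h
      subst h'
      show (1 >>> (680 * 0)) >>> 680 = 0
      rw [Nat.mul_zero, Nat.shiftRight_zero, Nat.shiftRight_eq_div_pow]
      exact Nat.div_eq_of_lt (Nat.one_lt_pow (by norm_num) (by norm_num))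
  | succ s ih =>
    intro Q hQ
    cases Q with
    | nil =>
      have e1 : Nat.shiftRight (pkQ []) (680 * (s + 1)) = 0 := by
        show 1 >>> (680 * (s + 1)) = 0
        rw [Nat.shiftRight_eq_div_pow]
        exact Nat.div_eq_of_lt (Nat.one_lt_pow (by omega) (by norm_num))
      refine ⟨?_, ?_⟩
      · intro c Q' h
        exact absurd h (by show ¬ (([] : List Con) = c :: Q'); simp)
      · intro _
        rw [e1]
        exact Nat.zero_shiftRight 680
    | cons d Q =>
      obtain ⟨h1, h2⟩ := ih Q (D_tail hQ)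
      have e1 : Nat.shiftRight (pkQ (d :: Q)) (680 * (s + 1)) =
          Nat.shiftRight (pkQ Q) (680 * s) := by
        rw [D_sh_add, (D_wd d Q hQ).1]
      refine ⟨?_, ?_⟩
      · intro c Q' h
        rw [e1]
        exact h1 c Q' h
      · intro h
        rw [e1]
        exact h2 h

end Helper81.PXr
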