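import Pool.Agent.Helper81.PX.St
import Mathlib.Tactic.Linarith
import Mathlib.Tactic.Ring

set_option autoImplicit false

/-!
# Packed checker (S15955), module P: test leaves
-/

namespace Helper81.PXr

open Helper11.CT Helper81.PXd

theorem P_eq {a b n : ℤ} (h : a = b) : a ≡ b [ZMOD n] := by
  rw [h]

/-- `v + w` represents `axpy 1 e f` -/
theorem P_add (hA : StA) {α β γ : ℤ} {e f : List ℤ} {v w : ℕ} (h : Rep α e v) (h' : Rep β f w)
    (hα : 0 ≤ α) (hβ : 0 ≤ β) (hγ : α + β ≤ γ) : Rep γ (axpy 1 e f) (v + w) := by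
  obtain ⟨a1, a2, a3⟩ := hA 1 e f
  refine ⟨a2.trans (max_le h.len h'.len), ?_, ?_⟩
  · intro x hx
    have := a3 α β hα hβ h.bd h'.bd x hx
    rw [abs_one] at this
    linarith
  · rw [a1, one_mul]
    push_cast
    exact h.cg.add h'.cg

/-- `ng v + w` represents `axpy (-1) e f` -/
theorem P_sub (hA : StA) {α β γ : ℤ} {e f : List ℤ} {v w : ℕ} (h : Rep α e v) (h' : Rep β f w)
    (hα : 0 ≤ α) (hβ : 0 ≤ β) (hγ : α + β ≤ γ) : Rep γ (axpy (-1) e f) (ng v + w) := by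
  obtain ⟨a1, a2, a3⟩ := hA (-1) e f
  refine ⟨a2.trans (max_le h.len h'.len), ?_, ?_⟩
  · intro x hx
    have := a3 α β hα hβ h.bd h'.bd x hx
    rw [abs_neg, abs_one] at this
    linarith
  · rw [a1, neg_one_mul]
    push_cast
    exact ((ng_cg v).trans h.cg.neg).add h'.cg

/-- `ng v` represents `axpy (-1) e []` -/
theorem P_neg (hA : StA) {α : ℤ} {e : List ℤ} {v : ℕ} (h : Rep α e v) (hα : 0 ≤ α) :
    Rep α (axpy (-1) e []) (ng v) := by
  obtain ⟨a1, a2, a3⟩ := hA (-1) e []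
  refine ⟨a2.trans (max_le h.len (by simp)), ?_, ?_⟩
  · intro x hx
    have := a3 α 0 hα le_rfl h.bd (by simp) x hx
    rw [abs_neg, abs_one] at this
    linarith
  · rw [a1, neg_one_mul, phi_nil, add_zero]
    exact (ng_cg v).trans h.cg.neg

theorem P_z0 (hA : StA) (K : Cls) (hK : Good K) : Rep 4 (z0f K) (z0N (pkK K)) := by
  unfold z0f z0N
  have h1 : (pkK K).K = K := rfl
  rw [h1]
  cases K.ds with
  | ofNat n => exact Rep.nil _
  | negSucc n => exact P_neg hA hK.D (by norm_num)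

theorem P_sS (hA : StA) (K : Cls) (hK : Good K) (r : SLn) (hn : ∀ x ∈ r.n, |x| ≤ 24)
    (hT : r.ty = 0 → okW r.T = true) : Rep 2000 (sS K (toSL r)) (sSN (pkK K) r) := by
  have hz := P_z0 hA K hK
  have hx := hK.x r.n hn
  unfold sS sSN
  show Rep 2000 (match r.ty with
    | 0 => axpy 1 r.T (fx K r.n)
    | 1 => z0f K
    | 2 => axpy 1 K.A (z0f K)
    | 3 => axpy 1 K.D (z0f K)
    | _ => axpy 1 K.A (axpy 1 K.D (z0f K))) _
  split
  · rename_i h0
    obtain ⟨t1, t2⟩ := okW_bd (hT h0)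
    rw [h0]
    exact P_add hA (Rep.pk t1 t2 (by norm_num)) hx (by norm_num) (by norm_num) (by norm_num)
  · rename_i h0
    rw [h0]
    exact hz.mono (by norm_num)
  · rename_i h0
    rw [h0]
    exact P_add hA hK.A hz (by norm_num) (by norm_num) (by norm_num)
  · rename_i h0
    rw [h0]
    exact P_add hA hK.D hz (by norm_num) (by norm_num) (by norm_num)
  · rename_i h0 h1 h2 h3
    split
    · exact absurd ‹_› (h0)
    · exact absurd ‹_› (h1)
    · exact absurd ‹_› (h2)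
    · exact absurd ‹_› (h3)
    · exact P_add hA hK.A (P_add hA hK.D hz (by norm_num) (by norm_num)
        (show (4 : ℤ) + 4 ≤ 8 by norm_num)) (by norm_num) (by norm_num) (by norm_num)

theorem P_sT (hA : StA) (K : Cls) (hK : Good K) (r : SLn) (hn : ∀ x ∈ r.n, |x| ≤ 24)
    (hT : r.ty = 0 → okW r.T = true) : Rep 5000 (sT K (toSL r)) (sTN (pkK K) r) := by
  have hx := hK.x r.n hn
  have hs := P_sS hA K hK r hn hT
  unfold sT sTN
  show Rep 5000 (match r.ty with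
    | 0 => r.T
    | _ => axpy (-1) (fx K r.n) (sS K (toSL r))) _
  split
  · rename_i h0
    obtain ⟨t1, t2⟩ := okW_bd (hT h0)
    rw [h0]
    exact Rep.pk t1 (fun x hx => (t2 x hx).trans (by norm_num)) (by norm_num)
  · rename_i h0
    split
    · exact absurd ‹_› (h0)
    · exact P_sub hA hx hs (by norm_num) (by norm_num) (by norm_num)

theorem P_so (r : SLn) : Rep 1 (soff (toSL r)) (sofN r) := by
  unfold soff sofN
  show Rep 1 (match r.ty with
    | 0 => [1]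
    | _ => []) _
  split
  · rename_i h0
    rw [h0]
    exact Rep.one le_rfl
  · rename_i h0
    split
    · exact absurd ‹_› (h0)
    · exact Rep.nil _

theorem hP (hA : StA) (hK : StK) (hL : StL) (hM : StM) (hN : StN) : StP := by
  intro K Q r hG hQ h
  have h' : an (isI K r.W) (an (okW r.W) (an (okd r.n) (an (match r.ty with
    | 0 => an (isI K r.T) (okW r.T)
    | _ => Nat.ble r.st 1)
  (an (nixN (pkK K) (pkQ Q) r.st r.n r.en1 r.en2 r.zn r.sc r.zl)
  (an (lmN (pkK K) (pkQ Q) r.st r.n (pkN r.W) (sTN (pkK K) r) (sofN r) r.AW r.At r.BW r.Bt)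
  (an (zaN (pkK K) (pkQ Q) (ssn1 r) (ssn2 r) (sp4 K r.st) (sSN (pkK K) r) (fxN (pkK K) r.n)
    (pkN r.W) (sTN (pkK K) r) (sofN r) r.Z)
  (let G := zG K (ssn1 r) (ssn2 r) (sp4 K r.st) (r.Z.map toZn)
   let J0 := jmp0 r.st r.AW.inn r.At.inn r.BW.inn r.Bt.inn
   let J1 := jmp1 r.st r.AW.inn r.At.inn r.BW.inn r.Bt.inn
   rgN [0, J0, G, Int.add G J1]))))))) = true := h
  rw [an_iff, an_iff, an_iff, an_iff, an_iff, an_iff, an_iff] at h'
  obtain ⟨h1, h2, h3, h4, h5, h6, h7, h8⟩ := h'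
  obtain ⟨n1, n2⟩ := okd_bd h3
  have n3 : ∀ x ∈ r.n, |x| ≤ 24 := fun x hx => (n2 x hx).trans (by norm_num)
  have hT : r.ty = 0 → okW r.T = true := by
    intro h0
    rw [h0] at h4
    exact ((an_iff _ _).1 h4).2
  have h4' : (match r.ty with
    | 0 => isI K r.T
    | _ => Nat.ble r.st 1) = true := by
    split at h4
    · exact ((an_iff _ _).1 h4).1
    · exact h4
  obtain ⟨w1, w2⟩ := okW_bd h2
  have hW : Rep 5000 r.W (pkN r.W) := Rep.pk w1 (fun x hx => (w2 x hx).trans (by norm_num)) (by norm_num)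
  have hsS := (P_sS hA K hG r n3 hT).mono (show (2000 : ℤ) ≤ 5000 by norm_num)
  have hsT := P_sT hA K hG r n3 hT
  have hso := P_so r
  have hx := (hG.x r.n n3).mono (show (1152 : ℤ) ≤ 5000 by norm_num)
  have r1 := hM.1 K Q r.st r.n r.en1 r.en2 r.zn r.sc r.zl hG hQ n1 n2 h5
  have r2 := hN.1 K Q r.st r.n r.W (sT K (toSL r)) (soff (toSL r)) _ _ _ r.AW r.At r.BW r.Bt hG hQ
    n3 hW hsT hso h6
  have r3 := hL.2 K Q (ssn1 r) (ssn2 r) (sp4 K r.st) (sS K (toSL r)) (fx K r.n) r.W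
    (sT K (toSL r)) (soff (toSL r)) _ _ _ _ _ r.Z hG hQ hsS hx hW hsT hso h7
  have r4 := hN.2 _ (by simp) h8
  show (isI K r.W && (match r.ty with
    | 0 => isI K r.T
    | _ => Nat.ble r.st 1) &&
  nix K Q r.st r.n (toC r.en1, toC r.en2) (toNZ r.zn) (toC r.sc) (toNZ r.zl) &&
  lmem K Q r.st r.n r.W (sT K (toSL r)) (soff (toSL r)) (toMem r.AW) (toMem r.At) (toMem r.BW)
    (toMem r.Bt) &&
  zall K Q (ss1 (toSL r)) (ss2 (toSL r)) (sp4 K r.st) (sS K (toSL r)) (fx K r.n) r.W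
    (sT K (toSL r)) (soff (toSL r)) (r.Z.map toZn) &&
  (let G := zG K (ss1 (toSL r)) (ss2 (toSL r)) (sp4 K r.st) (r.Z.map toZn)
   let J0 := jmp0 r.st r.AW.inn r.At.inn r.BW.inn r.Bt.inn
   let J1 := jmp1 r.st r.AW.inn r.At.inn r.BW.inn r.Bt.inn
   rng [0, J0, G, Int.add G J1])) = true
  rw [Bool.and_eq_true, Bool.and_eq_true, Bool.and_eq_true, Bool.and_eq_true, Bool.and_eq_true]
  exact ⟨⟨⟨⟨⟨h1, h4'⟩, r1⟩, r2⟩, r3⟩, r4⟩

end Helper81.PXr
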